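import Pool.Agent.L0h12.FF.Main
import Pool.Agent.L0h12.FF.Wedge

set_option autoImplicit false

/-!
# The Grothendieck period conjecture for algebraic cycles on abelian fourfolds

Let `A` be an abelian variety of dimension four over `ℚ̄`, such that no simple factor of `A` is of type
III or IV in the classification of Albert. So all simple factors have endomorphism algebras which are
totally real fields (for example `ℚ`, this is the general case) or totally indefinite quaternion
algebras over totally real fields; the factors may occur with multiplicities. (`A` is the general
abelian fourfold, or a fourfold with real or quaternionic multiplication, or a product of two arbitrary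
abelian surfaces without complex multiplication, isogenous or not, or the product of an abelian
threefold of type I and of an elliptic curve without complex multiplication, and so on.)

**Theorem.** All de Rham-Betti classes in `H^4(A)`, that is all elements of
`H^4_dR(A / ℚ̄) ∩ H^4(A, ℚ(2))`, are rational linear combinations of products of two divisor classes. So
`GPC ^ 2 (A)` is true. (`GPC ^ 1 (A)` is the theorem of Bost, and `GPC ^ 3 (A)` follows from it by hard
Lefschetz, so the period conjecture for cycles is true for `A` in all codimensions.)

This seems to be new even for `End(A) = ℤ`. Then the theorem says that the only classes in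
`H^4_dR(A / ℚ̄) ∩ H^4(A, ℚ(2))` are the multiples of the square of the polarization. For Hodge classes
the corresponding statement was proved by Moonen and Zarhin, with the help of the Hodge cocharacter:
all weights are minuscule. For de Rham-Betti classes this is not available. The Lie algebra `L` of the
endomorphisms of `H_1(A, ℂ)` which annihilate all de Rham-Betti classes on the powers of `A` acts
semisimply and its commutant consists of the endomorphisms of `A` (theorems of Schneider-Lang and Bost),
and nothing else is known about it: for `End(A) = ℤ` it may be `sp(8)`, or the image of
`sl(2) × sl(2) × sl(2)` (this occurs for the fourfolds of Mumford), or the image of `sl(2)` in its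
irreducible representation of dimension eight, and in the last case there are de Rham-Betti classes on
the powers of `A` which are not Hodge classes. The theorem says that they cannot occur in `H^4(A)`. In dimension five this is not true for the
corresponding representation of `sl(2)`: so the dimension four is the bound for this method.

The condition on the simple factors is stated in the following form (`NoTypeIIIorIV`): there are
commuting endomorphisms `P i` of `A` which are symmetric for the polarization (there may be none of them),
such that all endomorphisms of `A` which commute with all `P i` are symmetric. (If all simple factors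
are of type I or II, one takes generators of a suitable maximal commutative algebra of symmetric
endomorphisms. If there is a factor of type III or IV, this is not possible.)

Nothing is assumed about periods: `AbVar` is the description of an abelian variety over `ℚ̄` by theta
functions (see `Pool/Agent/Y102/AVDefs.lean`, where it is explained why every abelian variety has it),
and the theorem of Schneider and Lang is proved in this repository.

## The classes

The cohomology of `A` in degree `2 m` is the space of the alternating forms in `2 m` variables on
`H_1(A, ℚ)`, and `H^{2m}_dR(A / ℚ̄)` is the exterior power of `H^1_dR(A / ℚ̄)`, which has a basis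
consisting of the elements `A.dR i`. So `H^{2m}_dR(A / ℚ̄) ∩ H^{2m}(A, ℚ(m))` is the space of the rational
alternating forms `φ` such that `(2 π i) ^ m φ` is a combination of products of elements of this basis
with algebraic coefficients (`IsGr`). The variables are indexed by `Fin m × Fin 2`. A rational alternating
form in two variables which is a Hodge class is the class of a divisor, with rational coefficients, by the
theorem of Lefschetz (`IsDivisorClass`).

## Proof

1. Let `Z` be the algebra of the endomorphisms which commute with all `P i`. It is commutative, and
   `H_1(A, ℂ)` is the orthogonal sum of the joint eigenspaces `W j` of `Z`. By the double commutant theorem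
   (over `ℚ`) every complex endomorphism which commutes with `Z` is in the algebra generated by `L` and
   the `P i`; so the `W j` are irreducible representations of `L`, and the form is nondegenerate on them
   (`FF/Blocks`, `FF/Blocks2`).
2. So `L` is semisimple. Take a principal `sl(2)` in `L` (`FF/Prin`). On each `W j` the largest eigenvalue of
   `h` has multiplicity one (`FF/Top`); since `W j` is symplectic, all eigenvalues are odd
   (`FF/Kill`). So if some `W j` is of dimension at least four, then `H_1(A, ℂ)` is as a
   representation of `sl(2)` the sum of strings of the lengths 8, or 6, 2, or 4, 2, 2, or 4, 4; in the last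
   case the two strings are stable under `L` (`FF/MainC`).
3. In each case one computes the alternating forms in four variables which are annihilated by `sl(2)`,
   and shows that those among them which are annihilated by `L` are combinations of products of
   bilinear forms which are annihilated by `L`. For the lengths 8 there is only the square of the
   polarization (equivalently, a binary quartic has only one invariant of degree four). In the
   other cases there are more, but if one of them is annihilated by `L`, then contractions
   give more bilinear forms which are annihilated by `L` (`FF/Fin8`, `FF/Fin422`, `FF/Fin44`).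
4. If all `W j` are of dimension two, then `A` has maximal real multiplication, and the theorem is a
   special case of the results on such varieties (`Pool.Agent.Y102.AbVar.products_of_real`).
5. The result descends from `ℂ` to `ℚ` (`FF/Desc`).
-/

open Module Pool.Agent.Y102 Pool.Agent.W516.DR Pool.Agent.H204R3.GP

noncomputable section

namespace Pool.Agent.Results.MP_bf54cf_ag.AbelianFourfolds

variable {g : ℕ} (A : AbVar g)

/-- `P` is an endomorphism of `A` (up to isogeny), in terms of its action on `H_1(A, ℚ)`: it respects
the de Rham structure. (By the theorem of Bost, which is proved in `Pool.Agent.Y102.AbVar.hodge_end`,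
these are the elements of `End(A) ⊗ ℚ`.) -/
def IsEndo (P : Module.End ℚ A.H1) : Prop := IsDeRhamBettiEnd QBar A.dR P

/-- `P` is symmetric for the polarization. -/
def IsSymmetric (P : Module.End ℚ A.H1) : Prop := ∀ u v, A.om (P u) v = A.om u (P v)

/-- There are commuting symmetric endomorphisms `P i` such that all endomorphisms which commute with
all `P i` are symmetric: no simple factor of `A` is of type III or IV. -/
def NoTypeIIIorIV : Prop :=
  ∃ (r : ℕ) (P : Fin r → Module.End ℚ A.H1), (∀ i, IsEndo A (P i)) ∧
    (∀ i j, P i * P j = P j * P i) ∧ (∀ i, IsSymmetric A (P i)) ∧
    ∀ Q, IsEndo A Q → (∀ i, Q * P i = P i * Q) → IsSymmetric A Q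

/-- `H^{2m}(A, ℚ)`: the alternating forms in `2 m` variables in `H_1(A, ℚ)`. -/
abbrev Cohomology (m : ℕ) : Type := A.H1 [⋀^Fin m × Fin 2]→ₗ[ℚ] ℚ

/-- The bilinear forms on `H_1(A, ℚ)`. -/
abbrev Bilinear : Type := A.H1 →ₗ[ℚ] A.H1 →ₗ[ℚ] ℚ

/-- `φ` is an element of `H^{2m}_dR(A / ℚ̄) ∩ H^{2m}(A, ℚ(m))`. -/
def IsGr {m : ℕ} (φ : Cohomology A m) : Prop :=
  IsDeRhamBettiForm QBar A.dR (2 * Real.pi * Complex.I) m φ.toMultilinearMap

/-- The alternating bilinear form `b` is a Hodge class in `H^2(A) (1)`, that is (Lefschetz), a
rational multiple of the class of a divisor. -/
def IsDivisorClass (b : Bilinear A) : Prop :=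
  IsHodgeBilinear (A.per : A.H1 →+ (Fin g → ℂ)) b ∧ ∀ u, b u u = 0

/-- The product of the values of the bilinear forms `b l` on the vectors `v (l, 0)`, `v (l, 1)`. -/
def prodAt {m : ℕ} (b : Fin m → Bilinear A) (v : Fin m × Fin 2 → A.H1) : ℚ :=
  ∏ l, b l (v (l, 0)) (v (l, 1))

/-- The alternating form `ψ` is the product of the classes `b l` of degree two. -/
def IsProduct {m : ℕ} (b : Fin m → Bilinear A) (ψ : Cohomology A m) : Prop :=
  ∀ v, ψ v = ∑ σ : Equiv.Perm (Fin m × Fin 2), ((Equiv.Perm.sign σ : ℤ) : ℚ) * prodAt A b (v ∘ σ)

/-- `φ` is a linear combination of products of divisor classes. -/
def IsSumOfProducts {m : ℕ} (φ : Cohomology A m) : Prop :=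
  φ ∈ Submodule.span ℚ {ψ | ∃ b : Fin m → Bilinear A, (∀ l, IsDivisorClass A (b l)) ∧
    IsProduct A b ψ}

/-- **De Rham-Betti classes of degree four on abelian fourfolds.** If no simple factor of the abelian
fourfold `A` over `ℚ̄` is of type III or IV then all classes in `H^4_dR(A / ℚ̄) ∩ H^4(A, ℚ(2))` are linear
combinations of products of two divisor classes. -/
theorem result (A : AbVar 4) (hA : NoTypeIIIorIV A) (φ : Cohomology A 2) (hφ : IsGr A φ) :
    IsSumOfProducts A φ := by
  obtain ⟨r, P, h1, h2, h3, h4⟩ := hA
  have H : Pool.Agent.L0h12.FF.Sys A P :=
    { mem := fun i => A.mem_EA.2 (h1 i)
      comm := h2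
      sym := h3
      real := fun Q hQ hc => h4 Q (A.mem_EA.1 hQ) hc }
  exact Pool.Agent.L0h12.FF.alt_span φ
    (A.lef_sub (Pool.Agent.L0h12.FF.lef_of_fourfold rfl A H φ hφ))

end Pool.Agent.Results.MP_bf54cf_ag.AbelianFourfolds
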