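import Pool.Agent.L0h12.HP.Fam
import Pool.Agent.L0h12.HP.Tor
import Pool.Agent.Y123.GN.E8
import Pool.Agent.Y123.ST.Out

/-!
# The Grothendieck period conjecture for algebraic cycles, for almost all fibres of families with big monodromy

See `Pool/Agent/L0h12/HP/Fam.lean` and `Pool/Agent/L0h12/HP/Defs.lean` for the definitions.

Proof. By a start theorem (`Pool/Agent/Y123/GN`, `all_main`) for almost all tuples of fibres all subtorsors, over all number
fields of degree at most `D`, which contain the period matrix of `M_0 ⊕ ℚ(-1) ⊕ ⨁ M_i` are stable under the product of the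
groups `Sp(E_i)`, `SO(E_i)`. A de Rham-Betti class defines such a subtorsor, so it is invariant under this group. By the
first fundamental theorem of invariant theory, for forms with values in the tensor powers of `M_0`, the class is a sum of
products of forms `E_i` and tensors of `M_0`; and for a suitable choice the latter are again de Rham-Betti classes.
-/

set_option autoImplicit false

open PowerSeries Filter Matrix
open scoped commutatorElement

namespace Pool.Agent.Results.MP_bf54cf_ag.BigMonodromyFamilies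

open Pool.Agent.L0h12.HP

theorem iter_eq {r : ℕ} (T : Polynomial ℤ) (A : Fin r → Fin r → Polynomial ℤ) (s : ℕ) :
    iter T A s = Pool.Agent.Y120.GH.itm T A s := by
  induction s with
  | zero => rfl
  | succ s ih =>
    funext i j
    rw [iter, Pool.Agent.Y120.GH.itm, ih]

theorem qu_eq {r : ℕ} {T : Polynomial ℤ} {A : Fin r → Fin r → Polynomial ℤ} (h : QuasiUnipotent T A) :
    Pool.Agent.Y120.GH.QU0 T A := by
  obtain ⟨e, M, K, Φ, he, hdet, hc, heq⟩ := h
  have he0 : e ≠ 0 := by omega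
  refine ⟨e, he0, M, K, Φ, hc, fun i j n => ?_, hdet⟩
  have h1 := heq i j n
  simp only [atPow] at h1
  rw [Pool.Agent.Y120.GH.expand_poly he0]
  simp only [Pool.Agent.Y120.GH.expand_poly he0]
  exact h1

theorem fam {r : ℕ} {T : Polynomial ℤ} {A : Fin r → Fin r → Polynomial ℤ} {h : Fin r → PowerSeries ℚ}
    (hG : GFamily T A h) (δ : ℕ) : Pool.Agent.Y120.R.Fam δ h :=
  ⟨hG.size, Pool.Agent.Y120.GH.family_main hG.T_ne hG.ode hG.size hG.den (by
    obtain ⟨C, hC⟩ := hG.galochkin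
    refine ⟨C, fun m => ?_⟩
    obtain ⟨d, h1, h2, h3⟩ := hC m
    refine ⟨d, h1, h2, fun s hs i' j' => ?_⟩
    rw [← iter_eq]
    exact h3 s hs i' j') (qu_eq hG.regular) δ⟩

/-- the group of the isometries is contained in the differential Galois group -/
theorem gb_le {ρ n : ℕ} {h : Fin ρ → PowerSeries ℚ} {P : Fin n → Fin n → MvPolynomial (Option (Fin ρ)) ℂ}
    {E : Matrix (Fin n) (Fin n) ℚ} (hE : BigMonodromy h P E) :
    Pool.Agent.Y123.GN.GB (E.map (Rat.cast : ℚ → ℂ)) ≤ Pool.Agent.Y123.GN.Gs h P := by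
  intro g hg
  have hgi := (Pool.Agent.Y123.GN.GB (E.map (Rat.cast : ℚ → ℂ))).inv_mem hg
  exact ⟨hE.2.2 _ hg.1 hg.2, hE.2.2 _ hgi.1 hgi.2⟩

theorem clf {n : ℕ} {E : Matrix (Fin n) (Fin n) ℚ} (h1 : IsUnit E) (h2 : Eᵀ = -E ∨ (Eᵀ = E ∧ n ≠ 2)) :
    Pool.Agent.Y123.GN.Clf (E.map (Rat.cast : ℚ → ℂ)) := by
  have hu : IsUnit (E.map (Rat.cast : ℚ → ℂ)) := h1.map (Rat.castHom ℂ).mapMatrix
  rcases h2 with h | ⟨h, h3⟩
  · refine Or.inr (Or.inl ⟨hu, ?_⟩)
    rw [← Matrix.transpose_map, h]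
    ext i j
    simp
  · refine Or.inr (Or.inr ⟨hu, ?_, h3⟩)
    rw [← Matrix.transpose_map, h]

theorem good_of {D r k : ℕ} {n ρ : Fin k → ℕ} {C₀ : Matrix (Fin r) (Fin r) ℂ} (hC₀ : IsUnit C₀)
    {h : ∀ i, Fin (ρ i) → PowerSeries ℚ} {P : ∀ i, Fin (n i) → Fin (n i) → MvPolynomial (Option (Fin (ρ i))) ℂ}
    {t : Fin k → ℕ} (hg : Pool.Agent.Y123.GN.GoodU D (withT C₀) h P t) :
    Good D C₀ h P fun i => perMat (h i) (P i) (t i : ℝ) := by
  intro K hKf hKD E w hE hdrb
  classical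
  set Z : ∀ i, Matrix (Fin (n i)) (Fin (n i)) ℂ := fun i => perMat (h i) (P i) (t i : ℝ) with hZdef
  choose J hJ using fun i => exists_pairing (hdrb i)
  have hZ : ∀ i, IsUnit (Z i) := by
    intro i
    have h1 := congrArg Matrix.det (hJ i)
    rw [Matrix.det_mul, Matrix.det_mul, Matrix.det_smul] at h1
    have h2 : (E i).map (Rat.cast : ℚ → ℂ) = (Rat.castHom ℂ).mapMatrix (E i) := rfl
    have h3 : ((E i).map (Rat.cast : ℚ → ℂ)).det ≠ 0 := by
      have h4 : IsUnit ((E i).map (Rat.cast : ℚ → ℂ)) := (hE i).1.map (Rat.castHom ℂ).mapMatrix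
      exact ((Matrix.isUnit_iff_isUnit_det _).1 h4).ne_zero
    have h5 : twoPiI ^ w i ≠ 0 := zpow_ne_zero _ twoPiI_ne
    rw [Matrix.isUnit_iff_isUnit_det, isUnit_iff_ne_zero]
    intro h6
    rw [h6, zero_mul, zero_mul] at h1
    exact mul_ne_zero (pow_ne_zero _ h5) h3 h1.symm
  set s : Fin k → ℤ := fun i => if (E i)ᵀ = -E i then -1 else 1 with hs
  have hs1 : ∀ i, s i = 1 ∨ s i = -1 := by
    intro i
    rw [hs]
    dsimp only
    split_ifs
    · exact Or.inr rfl
    · exact Or.inl rfl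
  have hEs : ∀ i, (E i)ᵀ = (s i : ℚ) • E i := by
    intro i
    rw [hs]
    dsimp only
    split_ifs with h1
    · rw [h1]
      simp
    · rcases (hE i).2.1 with h2 | h2
      · exact absurd h2 h1
      · rw [h2.1]
        simp
  refine allSplit_of_inv hs1 hEs (fun i => (hE i).1) hZ hJ fun Q _ _ v φ hφ =>
    invt_of_stable hC₀ hZ (E := E) (fun T hT hcT g hg' => ?_) Q v φ hφ
  have hT' := Pool.Agent.Y123.ST.subT_iff.1 hT
  have hgu : ∀ i, IsUnit (g i) := fun i => by
    rw [Matrix.isUnit_iff_isUnit_det, (hg' i).1]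
    exact isUnit_one
  exact hg K hKf hKD T hT' hcT (fun i => (hgu i).unit) (fun i =>
    Pool.Agent.Y123.GN.mono_comm (gb_le (hE i)) (Pool.Agent.Y123.GN.cl_perf (clf (hE i).1 (hE i).2.1)) (hg' i)) _ hcT

/-- Let `h_i`, `1 ≤ i ≤ k`, be families of G-functions over `ℚ` and `P_i(x)` matrices of polynomials in `log x` and the `h_i`,
for example the period matrices of the cohomology of families of smooth projective varieties over an open part of the
line, near a rational point. Let `M_0` be any de Rham-Betti object with period matrix `C₀`. For almost all tuples `t` of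
natural numbers the fibres `M_i` at `x_i = 1 / t_i` have the following property, for all number fields `K` of degree at
most `D` and all forms `E_i` such that the families have big monodromy for the `E_i` (see `BigMonodromy`) and the `E_i` are
de Rham-Betti classes of `M_i ⊗ M_i` over `K`: all de Rham-Betti classes over `K` on all tensor powers of `M_0 ⊕ ⨁ M_i` are
rational linear combinations of products of the forms `E_i` and of de Rham-Betti classes of the tensor powers of `M_0` (for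
the symmetric `E_i` only classes of degree less than the rank of `M_i` in `M_i` are considered). Moreover `D` may tend to
infinity with the height of the tuples. -/
theorem result (k e r : ℕ) (ρ n : Fin k → ℕ) (T : Fin k → Polynomial ℤ)
    (A : ∀ i, Fin (ρ i) → Fin (ρ i) → Polynomial ℤ) (h : ∀ i, Fin (ρ i) → PowerSeries ℚ)
    (hG : ∀ i, GFamily (T i) (A i) (h i)) :
    -- number fields of degree at most `D`
    (∀ D : ℕ, ∃ c C : ℝ, 0 < c ∧ 0 ≤ C ∧ ∀ P : ∀ i, Fin (n i) → Fin (n i) → MvPolynomial (Option (Fin (ρ i))) ℂ,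
      (∀ i a b, (P i a b).totalDegree ≤ e) → ∀ C₀ : Matrix (Fin r) (Fin r) ℂ, IsUnit C₀ →
      ∀ (x : Fin k → ℕ) (N : ℕ), 1 ≤ N →
      (({t : Fin k → ℕ | (∀ i, x i < t i ∧ t i ≤ x i + N) ∧
        ¬ Good D C₀ h P fun i => perMat (h i) (P i) (t i : ℝ)}.ncard : ℕ) : ℝ) ≤
        C * (N : ℝ) ^ (k - 1) * ∑ i, (1 + N / ((x i : ℝ) + N) ^ c)) ∧
    -- number fields of degree at most `D N`, which tends to infinity
    (∃ (D : ℕ → ℕ) (δ : ℕ → ℝ), Tendsto D atTop atTop ∧ Tendsto δ atTop (nhds 0) ∧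
      ∀ P : ∀ i, Fin (n i) → Fin (n i) → MvPolynomial (Option (Fin (ρ i))) ℂ,
      (∀ i a b, (P i a b).totalDegree ≤ e) → ∀ C₀ : Matrix (Fin r) (Fin r) ℂ, IsUnit C₀ → ∀ N : ℕ, 1 ≤ N →
      (({t : Fin k → ℕ | (∀ i, 1 ≤ t i ∧ t i ≤ N) ∧
        ¬ Good (D N) C₀ h P fun i => perMat (h i) (P i) (t i : ℝ)}.ncard : ℕ) : ℝ) ≤ δ N * (N : ℝ) ^ k) := by
  classical
  have hmain : ∀ D : ℕ, ∃ c C : ℝ, 0 < c ∧ 0 ≤ C ∧ ∀ P : ∀ i, Fin (n i) → Fin (n i) → MvPolynomial (Option (Fin (ρ i))) ℂ,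
      (∀ i a b, (P i a b).totalDegree ≤ e) → ∀ C₀ : Matrix (Fin r) (Fin r) ℂ, IsUnit C₀ →
      ∀ (x : Fin k → ℕ) (N : ℕ), 1 ≤ N →
      (({t : Fin k → ℕ | (∀ i, x i < t i ∧ t i ≤ x i + N) ∧
        ¬ Good D C₀ h P fun i => perMat (h i) (P i) (t i : ℝ)}.ncard : ℕ) : ℝ) ≤
        C * (N : ℝ) ^ (k - 1) * ∑ i, (1 + N / ((x i : ℝ) + N) ^ c) := by
    intro D
    obtain ⟨c, C, hc, hC, hmain⟩ := Pool.Agent.Y123.GN.all_main k D e (r + 1) ρ n h fun i δ => fam (hG i) δ
    refine ⟨c, C, hc, hC, ?_⟩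
    intro P hP C₀ hC₀ x N hN
    set S := {t : Fin k → ℕ | (∀ i, x i < t i ∧ t i ≤ x i + N) ∧
        ¬ Good D C₀ h P fun i => perMat (h i) (P i) (t i : ℝ)} with hS
    have hfin : S.Finite := by
      refine (Set.finite_Iic (fun i : Fin k => x i + N)).subset ?_
      intro t ht i
      exact (ht.1 i).2
    rw [Set.ncard_eq_toFinset_card S hfin]
    refine hmain P hP (withT C₀) x N hN _ fun t ht => ?_
    have ht' : t ∈ S := hfin.mem_toFinset.1 ht
    exact ⟨ht'.1, fun hgood => ht'.2 (good_of hC₀ hgood)⟩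
  refine ⟨hmain, ?_⟩
  choose c C hc hC hcount using hmain
  obtain ⟨D, hD, hδ⟩ := Pool.Agent.Y123.GN.diag_seq
    (fun D N => C D * k * (1 / (N : ℝ) + 1 / (N : ℝ) ^ (c D))) (by
      intro D
      have h1 : Tendsto (fun N : ℕ => (1 : ℝ) / (N : ℝ)) atTop (nhds 0) := tendsto_one_div_atTop_nhds_zero_nat
      have h2 : Tendsto (fun N : ℕ => (1 : ℝ) / (N : ℝ) ^ (c D)) atTop (nhds 0) := by
        have h3 := (tendsto_rpow_atTop (hc D)).comp tendsto_natCast_atTop_atTop
        have h4 := h3.inv_tendsto_atTop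
        refine h4.congr fun N => ?_
        rw [one_div]
        rfl
      have h5 := (h1.add h2).const_mul (C D * k)
      rw [add_zero, mul_zero] at h5
      exact h5)
  refine ⟨D, _, hD, hδ, ?_⟩
  intro P hP C₀ hC₀ N hN
  have h1 := hcount (D N) P hP C₀ hC₀ (fun _ => 0) N hN
  have h2 : {t : Fin k → ℕ | (∀ i, 0 < t i ∧ t i ≤ 0 + N) ∧
      ¬ Good (D N) C₀ h P fun i => perMat (h i) (P i) (t i : ℝ)} = {t : Fin k → ℕ | (∀ i, 1 ≤ t i ∧ t i ≤ N) ∧
      ¬ Good (D N) C₀ h P fun i => perMat (h i) (P i) (t i : ℝ)} := by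
    ext t
    simp only [Set.mem_setOf_eq, zero_add, Nat.lt_iff_add_one_le]
  rw [h2] at h1
  refine h1.trans (le_of_eq ?_)
  have hN0 : (N : ℝ) ≠ 0 := by
    have : N ≠ 0 := by omega
    exact_mod_cast this
  rw [Finset.sum_const, Finset.card_univ, Fintype.card_fin, nsmul_eq_mul, Nat.cast_zero, zero_add]
  rcases Nat.eq_zero_or_pos k with hk | hk
  · subst hk
    simp
  · obtain ⟨q, rfl⟩ : ∃ q, k = q + 1 := ⟨k - 1, by omega⟩
    have h3 : (N : ℝ) ^ (q + 1) = (N : ℝ) ^ q * N := pow_succ _ _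
    rw [Nat.add_sub_cancel, h3]
    have h4 : (1 : ℝ) + N / (N : ℝ) ^ (c (D N)) = N * (1 / (N : ℝ) + 1 / (N : ℝ) ^ (c (D N))) := by
      rw [mul_add, mul_one_div_cancel hN0, mul_one_div]
    rw [h4]
    ring

end Pool.Agent.Results.MP_bf54cf_ag.BigMonodromyFamilies
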