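import Pool.Agent.L0h12.PT.Rcd
import Pool.Agent.L0h12.CM.Fac
import Pool.Agent.L0h12.CM.Prime

set_option autoImplicit false

/-!
# The period conjecture for cycles on all powers of K3 surfaces with complex multiplication, and on
# the products of abelian varieties with complex multiplication by abelian fields, elliptic curves
# and modular Jacobians

Let `A` be an abelian variety over the field `ℚ̄` of algebraic numbers (`AbVar` is the description by
theta functions, see `Pool/Agent/Y102/AVDefs.lean`, where it is explained why every abelian variety
over `ℚ̄` has it). A class in `H^1(A, ℚ) ^ {⊗ r} (w)` is given by a multilinear form `φ` with rational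
values in `r` variables in `H_1(A, ℚ)`; it is a *de Rham-Betti class* if `(2 π i) ^ w φ` is in the
tensor power of `H^1_dR(A / ℚ̄)` (`IsDRB`). Nothing is assumed about periods; the transcendence theorem
which is used is the theorem of Schneider and Lang, which is proved in this repository.

Let `E` be a CM field, and `n ≥ 1`. The abelian variety `A` is of *unitary type* `(E, n)`
(`TypeUnitary`) if there are operators `w σ i` on `H_1(A, ℂ)`, for the complex embeddings `σ` of `E`
and `1 ≤ i ≤ n`, with the relations of the Clifford algebra `w σ i * w σ' i + w σ' i * w σ i = 1`,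
where `σ'` is the complex conjugate of `σ`, while all the other pairs anticommute, such that the
complexified Lie algebra `𝔤 ⊗ ℂ` of the Hodge group of `A` is spanned by the commutators of
`w σ i` and `w σ' j`, and such that the centre of `𝔤` is the space of the elements `x` of `E` with
`x̄ = -x`, where `x` acts by `½ ∑ σ, i, σ(x) w σ i w σ' i`.

The abelian variety `A` is *rigid* (`IsRigid`) if every subalgebra `𝔥` of `𝔤` such that `H_1(A, ℚ)` is
a semisimple module over `𝔥`, and all endomorphisms of this module commute with `𝔤`, contains the derived
algebra `[𝔤, 𝔤]`.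

**Theorem.** Let `A` be an abelian variety over `ℚ̄` such that

(1) `A` is of unitary type `(E, n)`, where `E` is admissible and `n = 1` or `n` is even (`IsUnitary`), or
(2) `A` is rigid, and has direct factors `A_1, …, A_k` (up to isogeny) of unitary types `(E_i, n_i)`,
    with any `n_i ≥ 1` and admissible and independent fields `E_i`, such that the centre of `𝔤` acts
    faithfully on these factors (`CentreFaithful`).

Here a CM field `E` is *admissible* if
(a) `E / ℚ` is an abelian extension, or (b) `[E : ℚ] = 2 p` with a prime number `p`, or
(c) the conjugate embeddings of `E` are permuted transitively, up to complex conjugation, by a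
commutative group of automorphisms, or (d) every nonzero Galois stable space of odd rational functions
on the set of the embeddings contains a nonzero function with values in `{0, 1, -1}` (this is implied
by each of the conditions (a), (b), (c)). The fields `E_i` are *independent* (`Independent`) if every
Galois stable space of families of odd functions on the sets of the embeddings of the `E_i` is the sum
of its components, that is, if the representations of the Galois group on the odd functions for the
different `E_i` have no constituents in common; for `k = 1` this is no condition.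

Let `B` be a direct factor (up to isogeny) of a power of `A`. Then all de Rham-Betti classes in the
tensor powers of `H^1(B)` are Hodge classes.


Condition (c) holds for general CM fields of every degree `2 k`: it is enough that some automorphism
permutes the `k` pairs of conjugate embeddings cyclically. Condition (d) holds for example for the
reflex fields of the CM types of (d1) the CM fields of degree `2 k` whose Galois group contains all the
`2 ^ k` changes of signs, and (d2) the fields `K F` with an imaginary quadratic field `K` and a totally
real field `F` of degree `k` with the symmetric group as Galois group. In (d1) the embeddings of the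
reflex field are the vectors of signs, and a Galois stable space of odd functions is spanned by products
of signs. In (d2) the odd functions are functions on the `r`-element subsets of a set with `k` elements
(odd for the complement, if `k = 2 r`), and a stable space is a sum of different Specht modules, which
contain the functions `S ↦ ∏ i, (1_{a_i ∈ S} - 1_{b_i ∈ S})`, with values `0`, `1`, `-1`, on the `S`
that contain exactly one element of each pair `{a_i, b_i}` (and zero elsewhere).

## K3 surfaces

Let `X` be a K3 surface over `ℚ̄` (or a hyperkähler variety, or a cubic fourfold), let `T` be its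
transcendental lattice, and assume that the field `E` of the endomorphisms of the Hodge structure `T` is
a CM field. Let `n` be the dimension of `T` over `E`. By the theorem of Zarhin the Hodge group of `T` is
the unitary group of `T` over `E`. The space `T ⊗ ℂ` is the sum of the totally isotropic eigenspaces
`W_σ`, where `W_σ` and `W_σ'` are in duality. The first homology of the Kuga-Satake variety `A` of
`T` is the even Clifford algebra `C⁺(T)`, and the Lie algebra of its Hodge group is the Lie algebra
of the Hodge group of `T` acting by left multiplication. Let the `w_{σ, i}` be bases of the `W_σ`, dual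
to each other for `σ` and `σ'`, and let `e` be a vector of `T ⊗ ℂ` with `e ^ 2 = 1`. The operators
`w σ i : y ↦ w_{σ, i} y e` on `C⁺(T ⊗ ℂ)` have the properties required in `TypeUnitary`.

So all de Rham-Betti classes on all powers of the Kuga-Satake variety of `X` are Hodge classes, and by
the theorems of Deligne and André the same is true for all powers of `X` itself. By the first
fundamental theorem of invariant theory for the general linear group the Hodge classes on the powers of
`T` are generated by those in `T ⊗ T`, that is by the elements of `E`; `E` is spanned by Hodge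
isometries of `T` (elements `x` with `x x̄ = 1`), which are algebraic by the theorem of Buskin. So
`GPC ^ k (X ^ m)` holds for all `k` and `m`, for all K3 surfaces `X` over `ℚ̄` with multiplication by
an admissible CM field `E` such that `n = 1` (these are the K3 surfaces with complex multiplication)
or `n` is even. The case of an imaginary quadratic field and of even `n` is contained in
`UnitaryKugaSatake`.

## Abelian varieties with complex multiplication

Let `L` be a CM field which is an abelian extension of `ℚ`, and let `A` be the product of the abelian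
varieties `A_Φ` with complex multiplication by `L` for all the CM types `Φ` of `L`. The Lie algebra of the
Hodge group of `A` is the space of the `x` in `L` with `x̄ = -x`; it acts on `H_1(A, ℂ)` with the
eigenvalues `∑ σ ∈ Ψ, σ(x)`, one for each CM type `Ψ` of `L`, and all of them have the same
multiplicity. So `H_1(A, ℂ)` is a multiple of the exterior algebra, and `A` is of type `(L, 1)`. All
abelian varieties with complex multiplication whose CM fields are contained in `L` are direct factors
of powers of `A`. So for all abelian varieties `B` over `ℚ̄` with complex multiplication by fields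
which are abelian extensions of `ℚ`, all de Rham-Betti classes on all powers of `B` are Hodge classes.
Examples are the Jacobians of the Fermat curves and their quotients `y ^ m = x ^ a (1 - x) ^ b`; so
all de Rham-Betti classes on products of Fermat varieties are Hodge classes.

## Several CM fields

An abelian variety with complex multiplication and the CM type `Φ` is a
direct factor of an abelian variety of type `(E, 1)`, if the CM field `E` contains the reflex field of
`Φ`. For example, let `Φ_i` be CM types of non-Galois quartic CM fields, with pairwise different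
Galois closures. The reflex fields are quartic and satisfy (b), and the odd functions on their
embeddings are faithful irreducible representations of dimension two of the dihedral groups of order
eight; so these fields are independent of each other, and of every abelian CM field. So the
products of (powers of) the corresponding abelian surfaces, of abelian varieties with complex
multiplication by abelian fields, and of rigid abelian varieties without centre are factors of
abelian varieties `A` with (2).

## Products with rigid abelian varieties

Let `A = A₁ × C`, where `A₁` has complex multiplication and is contained in a sum of factors of unitary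
type with independent admissible fields, and `C` is rigid and the centre of its Lie algebra is zero. Then `A` satisfies (2): see `hasType_of_product`, proved below. This is the case if `H_1(C, ℂ)`
is a sum of planes `V_i` and `𝔤_C ⊗ ℂ` is the sum of the `sl(V_i)` for the different planes: a
subalgebra which acts irreducibly on `V_i` has the image `sl(V_i)`, and a proper subalgebra with all
these images makes two different planes isomorphic. So `C` can be a product of elliptic curves without
complex multiplication, of abelian varieties with real multiplication by a totally real field of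
degree equal to the dimension, and of abelian varieties with multiplication by a totally indefinite
quaternion algebra over a totally real field of half this degree. The Kuga-Satake varieties of the K3
surfaces whose transcendental lattice has multiplication by a totally real field `F`, and has rank
`r ≥ 6` over `F`, can also be factors of `C` (by a theorem on spin representations in the starting
library, `determined_of_typeSpin` in `MP_5d33ca_ag/OneMotivesMumfordTate`). Hence all de Rham-Betti
classes are Hodge classes on all products of Fermat varieties of arbitrary degrees and dimensions,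
abelian varieties with complex multiplication by abelian fields, elliptic curves, and factors of the
Jacobians `J_1(N)` of the modular curves. If `A₁` is a Kuga-Satake variety of unitary type `(E, n)` with
even `n > 2`, and `𝔤_C ⊗ ℂ` has no simple factor `sl(n)`, then `A = A₁ × C` satisfies (2), by the lemma
of Goursat.

**Rigid abelian varieties with a centre.** Let `C` be rigid, and let the centres of the endomorphism
algebras of its simple factors be totally real fields or CM fields which are abelian extensions of
`ℚ`. Let `L` be a CM field which is an abelian extension of `ℚ` and contains all these CM fields, and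
let `A₁` be the product of the abelian varieties with complex multiplication by `L` for all the CM
types of `L`; it is of type `(L, 1)`. Then `A = A₁ × C` satisfies (2): it is rigid
(`isRigid_of_product`, proved below), and the centre acts faithfully on `A₁`, because the Hodge
structures `det_F H^1(C')` of the isotypic factors `C'` with the CM fields `F` have rank one over `F` and
are contained in the tensor category of `H^1(A₁)`. For example `C` can be
(i) a simple abelian variety such that the endomorphisms of `H_1(C, ℚ)` which commute with `End(C)` are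
a quaternion algebra over the CM field `F`, with the signature `(1, 1)` at exactly one place of the
totally real subfield. These are the abelian varieties of the Shimura curves over totally real fields
(Shimura, Deligne, Carayol). The derived algebra of a subalgebra as in the definition of rigidity has
the image `sl(2)` at each place, and belongs to a Galois stable partition of the set of the places; the
noncompact place is a block of it, as `su(1, 1)` and `su(2)` are not isomorphic, and so all blocks are
single places;
(ii) a simple abelian variety such that `F` is an imaginary quadratic field and these endomorphisms are a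
division algebra of prime degree over `F`, with any signature (see also `CentreOfPeriodTorsors`).

## Proof

Let `𝔩` be the Lie algebra of the endomorphisms that annihilate all de Rham-Betti classes. By the
theorem of Schneider and Lang `𝔩` is a subalgebra of `𝔤` which acts semisimply and has the same
commutant. In the case (1) the derived algebra of `𝔤` is contained in `𝔩` if `n` is even (a theorem of
`MP_f11a48_ag/UnitaryKugaSatake`), and it is zero if `n = 1`; in the case (2) it is contained in `𝔩`
because `A` is rigid. Consider a generic element of the centre of `𝔩`, given by `x_i` in `E_i` on the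
factor `A_i` (`k = 1` and `A_1 = A` in the case (1)). The families of odd rational functions `c_i` on the
sets of the embeddings with `∑ i, ∑ σ, c_i(σ) σ(x_i) = 0` form a space which is stable under the
automorphisms of `ℂ`. As the fields are independent, it is the sum of the spaces `R` of the relations
for the `x = x_i`, `E = E_i`. Let `c` be an element of `R` with values in `{0, 1, -1}`. The product of
all the operators `w σ j` with `c(σ) = 1` commutes with the derived algebra, and with `x`, because of
the relation; so it commutes with the image of `𝔩` for the factor, hence with the centre of its Lie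
algebra, by the property of the commutants, and this means that the relation holds for all `x`. So
`c = 0`, as the embeddings are linearly independent, and `R = 0` for admissible `E`: if a commutative group permutes the embeddings transitively, `R` is an
ideal of its group ring, and every nonzero ideal of the rational group ring of a finite abelian group
contains a nonzero element with coefficients `0`, `1`, `-1` (for the characters with kernel `N` such
that `G / N` is cyclic of order `m` with generator `g`: the product of `∑ h ∈ N, h` and of the
`1 - g ^ (m / p)` for the prime divisors `p` of `m`). As there are no relations at all, the centre of `𝔤`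
annihilates the de Rham-Betti classes (`PT.NA_le_LA`): an additive function maps the eigenvalues of
`x` to those of any other element of the centre, and the annihilator of the classes is closed under
replicas.
-/

open Module Matrix NumberField Pool.Agent.Y102 Pool.Agent.W516.DR Pool.Agent.H204R3.GP

noncomputable section

namespace Pool.Agent.Results.MP_bf54cf_ag.ComplexMultiplication

section field

variable (E : Type) [Field E]

/-- Every nonzero space `V` of odd rational functions on the set of the complex embeddings of `E` which
is stable under all automorphisms of `ℂ` contains a nonzero function with values in `{0, 1, -1}`. -/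
def SignRich : Prop :=
  ∀ V : Submodule ℚ ((E →+* ℂ) → ℚ), V ≠ ⊥ →
    (∀ c ∈ V, ∀ σ, c (ComplexEmbedding.conjugate σ) = -c σ) →
    (∀ (s : ℂ ≃+* ℂ), ∀ c ∈ V, (fun σ => c ((s : ℂ →+* ℂ).comp σ)) ∈ V) →
    ∃ c ∈ V, c ≠ 0 ∧ ∀ σ, c σ = 0 ∨ c σ = 1 ∨ c σ = -1

/-- There is a group of automorphisms of `ℂ` which acts on the complex embeddings of `E` through a
commutative group, and transitively up to complex conjugation. -/
def AbelianTransitive : Prop :=
  ∃ S : Subgroup (ℂ ≃+* ℂ),
    (∀ s ∈ S, ∀ t ∈ S, ∀ σ : E →+* ℂ,
      (s : ℂ →+* ℂ).comp ((t : ℂ →+* ℂ).comp σ) = (t : ℂ →+* ℂ).comp ((s : ℂ →+* ℂ).comp σ)) ∧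
    ∀ σ τ : E →+* ℂ, ∃ s ∈ S,
      τ = (s : ℂ →+* ℂ).comp σ ∨ τ = ComplexEmbedding.conjugate ((s : ℂ →+* ℂ).comp σ)

/-- The field `E` is admissible: it is an abelian extension of `ℚ`, or its degree is twice a prime
number, or its conjugate embeddings are permuted transitively (up to complex conjugation) by a
commutative group of automorphisms, or it satisfies the condition `SignRich`. -/
def Admissible [NumberField E] : Prop :=
  IsAbelianGalois ℚ E ∨ (∃ p : ℕ, p.Prime ∧ finrank ℚ E = 2 * p) ∨ AbelianTransitive E ∨ SignRich E

end field

variable {g : ℕ} (A : AbVar g)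

/-- `φ` is a de Rham-Betti class in `H^1(A) ^ {⊗ r} (w)`, where `r` is the number of the variables: the
form `(2 π i) ^ w φ` is a combination of products of `r` classes of the de Rham cohomology
`H^1_dR(A / ℚ̄)`, with coefficients in `ℚ̄`. -/
def IsDRB {κ : Type} [Fintype κ] [DecidableEq κ] (w : ℤ)
    (φ : MultilinearMap ℚ (fun _ : κ => A.H1) ℚ) : Prop :=
  ∃ c : (κ → Fin g ⊕ Fin g) → QBar, ∀ v : κ → A.H1,
    (2 * Real.pi * Complex.I) ^ w * (φ v : ℂ) =
      ∑ J, algebraMap QBar ℂ (c J) * ∏ l, A.dR (J l) (v l)

/-- `φ` is a Hodge class: it extends to a real multilinear form on the tangent space which is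
invariant under the multiplication by the complex numbers of absolute value `1`. -/
def IsHodge {κ : Type} (φ : MultilinearMap ℚ (fun _ : κ => A.H1) ℚ) : Prop :=
  ∃ Ψ : MultilinearMap ℝ (fun _ : κ => Fin g → ℂ) ℝ,
    (∀ v : κ → A.H1, Ψ (fun l => A.per (v l)) = φ v) ∧
    ∀ z : ℂ, ‖z‖ = 1 → ∀ u : κ → Fin g → ℂ, Ψ (fun l => z • u l) = Ψ u

/-- The endomorphism `X` annihilates the form `φ` (as a derivation). -/
def Annihilates {κ : Type} [Fintype κ] [DecidableEq κ] (X : Module.End ℚ A.H1)
    (φ : MultilinearMap ℚ (fun _ : κ => A.H1) ℚ) : Prop :=
  ∀ v, ∑ l, φ (Function.update v l (X (v l))) = 0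

/-- `X` is in the Lie algebra `𝔤` of the Hodge group: it annihilates all classes in
`H^1(A) ^ {⊗ 2m} (m)` that are Hodge classes and de Rham-Betti classes (by a theorem of Deligne all
Hodge classes are de Rham-Betti classes). -/
def InLie (X : Module.End ℚ A.H1) : Prop :=
  ∀ (m : ℕ) (φ : MultilinearMap ℚ (fun _ : Fin m × Fin 2 => A.H1) ℚ),
    IsHodge A φ → IsDRB A m φ → Annihilates A X φ

/-- `X` is in the centre of `𝔤`. -/
def InCentre (X : Module.End ℚ A.H1) : Prop := InLie A X ∧ ∀ Y, InLie A Y → Y * X = X * Y

/-- The algebra of the endomorphisms of `H_1(A, ℂ)`, as matrices for the basis of the lattice. -/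
abbrev EndC (_ : AbVar g) : Type := Matrix (Fin (2 * g)) (Fin (2 * g)) ℂ

/-- The matrix of the extension of an endomorphism of `H_1(A, ℚ)` to `H_1(A, ℂ)`. -/
def toC (X : Module.End ℚ A.H1) : EndC A := Matrix.of fun i j => (X (Pi.single j 1) i : ℂ)

/-- The complex Lie algebra `𝔤 ⊗ ℂ`, acting on `H_1(A, ℂ)`. -/
def lieC : Submodule ℂ (EndC A) := Submodule.span ℂ {Y | ∃ X, InLie A X ∧ Y = toC A X}

/-- The abelian variety is of unitary type for the CM field `E` and the rank `n`: the operators
`w σ i` satisfy the relations of a Clifford algebra, `𝔤 ⊗ ℂ` is spanned by the commutators of `w σ i`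
and `w σ' j` (where `σ'` is the complex conjugate of `σ`), and the centre of `𝔤` consists of the
operators `½ ∑ σ, i, σ(x) w σ i w σ' i` for the elements `x` of `E` with `x̄ = -x`. -/
def TypeUnitary (E : Type) [Field E] [NumberField E] [IsCMField E] (n : ℕ) : Prop :=
  ∃ w : (E →+* ℂ) → Fin n → EndC A,
    (∀ σ i τ j, ¬(τ = ComplexEmbedding.conjugate σ ∧ i = j) → w σ i * w τ j = -(w τ j * w σ i)) ∧
    (∀ σ i, w σ i * w (ComplexEmbedding.conjugate σ) i +
      w (ComplexEmbedding.conjugate σ) i * w σ i = 1) ∧
    lieC A = Submodule.span ℂ {Y | ∃ σ i j, Y = w σ i * w (ComplexEmbedding.conjugate σ) j -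
      w (ComplexEmbedding.conjugate σ) j * w σ i} ∧
    (∀ X, InCentre A X → ∃ x : E, IsCMField.complexConj E x = -x ∧
      toC A X = (2⁻¹ : ℂ) • ∑ σ, ∑ i, σ x • (w σ i * w (ComplexEmbedding.conjugate σ) i)) ∧
    ∀ x : E, IsCMField.complexConj E x = -x → ∃ X, InCentre A X ∧
      toC A X = (2⁻¹ : ℂ) • ∑ σ, ∑ i, σ x • (w σ i * w (ComplexEmbedding.conjugate σ) i)

/-- `f` is a homomorphism (up to isogeny) from `B` to `A`: it is given by a linear map of the tangent
spaces, and the pull backs of the algebraic differential forms are algebraic. -/
def IsHom {g' g : ℕ} (B : AbVar g') (A : AbVar g) (f : B.H1 →ₗ[ℚ] A.H1) : Prop :=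
  (∃ F : (Fin g' → ℂ) →ₗ[ℂ] (Fin g → ℂ), ∀ v, F (B.per v) = A.per (f v)) ∧
    ∃ e : Fin g ⊕ Fin g → Fin g' ⊕ Fin g' → QBar,
      ∀ i v, A.dR i (f v) = ∑ j, algebraMap QBar ℂ (e i j) * B.dR j v

/-- `𝔥` is a subalgebra of `𝔤`. -/
def IsSubalgebra (𝔥 : Submodule ℚ (Module.End ℚ A.H1)) : Prop :=
  (∀ X ∈ 𝔥, InLie A X) ∧ ∀ X ∈ 𝔥, ∀ Y ∈ 𝔥, X * Y - Y * X ∈ 𝔥

/-- The space `H_1(A, ℚ)` is a semisimple module over `𝔥`. -/
def IsSemisimple (𝔥 : Submodule ℚ (Module.End ℚ A.H1)) : Prop :=
  ∀ U : Submodule ℚ A.H1, (∀ X ∈ 𝔥, ∀ u ∈ U, X u ∈ U) →
    ∃ U' : Submodule ℚ A.H1, (∀ X ∈ 𝔥, ∀ u ∈ U', X u ∈ U') ∧ IsCompl U U'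

/-- All endomorphisms of `H_1(A, ℚ)` which commute with `𝔥` commute with `𝔤`. -/
def SameCommutant (𝔥 : Submodule ℚ (Module.End ℚ A.H1)) : Prop :=
  ∀ P : Module.End ℚ A.H1, (∀ X ∈ 𝔥, X * P = P * X) → ∀ X, InLie A X → X * P = P * X

/-- The abelian variety is *rigid*: every subalgebra `𝔥` of `𝔤` such that `H_1(A, ℚ)` is a semisimple
module over `𝔥`, and all endomorphisms of this module commute with `𝔤`, contains the derived algebra
`[𝔤, 𝔤]`. -/
def IsRigid : Prop := ∀ 𝔥, IsSubalgebra A 𝔥 → IsSemisimple A 𝔥 → SameCommutant A 𝔥 →
  ∀ X Y, InLie A X → InLie A Y → X * Y - Y * X ∈ 𝔥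

/-- A direct factor `B` of `A` (up to isogeny) of unitary type `(E, n)`, for an admissible CM field `E`
and `n ≥ 1`. -/
structure UnitaryFactor where
  /-- the field -/
  E : Type
  [field : Field E]
  [number : NumberField E]
  [cm : IsCMField E]
  /-- the dimension of the factor -/
  g' : ℕ
  /-- the factor -/
  B : AbVar g'
  /-- the rank -/
  n : ℕ
  /-- the inclusion of the factor -/
  f : B.H1 →ₗ[ℚ] A.H1
  /-- the projection to the factor -/
  p : A.H1 →ₗ[ℚ] B.H1
  admissible : Admissible E
  pos : n ≠ 0
  type : TypeUnitary B E n
  inclusion : IsHom B A f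
  projection : IsHom A B p
  split : ∀ v, p (f v) = v

attribute [instance] UnitaryFactor.field UnitaryFactor.number UnitaryFactor.cm

/-- The complex embeddings of the field `E` of the factor. -/
def UnitaryFactor.Emb {A : AbVar g} (F : UnitaryFactor A) : Type := F.E →+* ℂ

/-- The complex conjugate of an embedding. -/
def UnitaryFactor.conj {A : AbVar g} (F : UnitaryFactor A) (σ : F.Emb) : F.Emb :=
  ComplexEmbedding.conjugate (K := F.E) σ

/-- The composition of an embedding with an automorphism of `ℂ`. -/
def UnitaryFactor.act {A : AbVar g} (F : UnitaryFactor A) (s : ℂ ≃+* ℂ) (σ : F.Emb) : F.Emb :=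
  RingHom.comp (α := F.E) (s : ℂ →+* ℂ) σ

/-- The families of rational functions on the sets of the complex embeddings of the fields. -/
abbrev Family {k : ℕ} (F : Fin k → UnitaryFactor A) : Type := ∀ i, (F i).Emb → ℚ

/-- All functions in the space `V` of families are odd, and it is stable under all automorphisms
of `ℂ`. -/
def IsStableOdd {k : ℕ} (F : Fin k → UnitaryFactor A) (V : Submodule ℚ (Family A F)) : Prop :=
  (∀ c ∈ V, ∀ i σ, c i ((F i).conj σ) = -c i σ) ∧
    ∀ s : ℂ ≃+* ℂ, ∀ c ∈ V, (fun i σ => c i ((F i).act s σ)) ∈ V

/-- The space `V` of families is the direct sum of its components. -/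
def Splits {k : ℕ} (F : Fin k → UnitaryFactor A) (V : Submodule ℚ (Family A F)) : Prop :=
  ∀ c ∈ V, ∀ i, ∃ c' ∈ V, c' i = c i ∧ ∀ j, j ≠ i → c' j = 0

/-- The fields `E_i` of the factors are independent: every Galois stable space of families of odd
functions on the sets of the embeddings of the `E_i` is the direct sum of its components. (The
representations of the Galois group on the odd functions for different `i` have no constituents in
common.) -/
def Independent {k : ℕ} (F : Fin k → UnitaryFactor A) : Prop :=
  ∀ V : Submodule ℚ (Family A F), IsStableOdd A F V → Splits A F V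

/-- The centre of `𝔤` acts faithfully on the factors: an element of the centre which acts by zero on the
homology of all the factors is zero. -/
def CentreFaithful {k : ℕ} (F : Fin k → UnitaryFactor A) : Prop :=
  ∀ X, InCentre A X → (∀ i v, (F i).p (X ((F i).f v)) = 0) → X = 0

/-- The abelian variety `A` is of unitary type `(E, n)`, with `n = 1` or `n` even, for an admissible CM
field `E`. -/
def IsUnitary : Prop := ∃ (E : Type) (_ : Field E) (_ : NumberField E) (_ : IsCMField E) (n : ℕ),
  Admissible E ∧ (n = 1 ∨ (Even n ∧ n ≠ 0)) ∧ TypeUnitary A E n

/-- The abelian variety `A` is of unitary type `(E, n)`, with `n = 1` or `n` even and `E` admissible; or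
it is rigid, and the centre of `𝔤` acts faithfully on independent factors of unitary type. -/
def HasType : Prop :=
  IsUnitary A ∨
    (IsRigid A ∧ ∃ (k : ℕ) (F : Fin k → UnitaryFactor A), Independent A F ∧ CentreFaithful A F)

theorem inLie_iff {X : Module.End ℚ A.H1} : InLie A X ↔ X ∈ A.NA :=
  forall_congr' fun _ => forall_congr' fun φ => forall_congr' fun _ =>
    (imp_congr_left (L0h12.CM.drb_iff (A := A) (φ := φ)))

theorem inCentre_iff {X : Module.End ℚ A.H1} : InCentre A X ↔ X ∈ A.CN :=
  ⟨fun h => ⟨(inLie_iff A).1 h.1, fun Y hY => h.2 Y ((inLie_iff A).2 hY)⟩,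
    fun h => ⟨(inLie_iff A).2 h.1, fun Y hY => h.2 Y ((inLie_iff A).1 hY)⟩⟩

theorem exists_unit {E : Type} [Field E] [NumberField E] [IsCMField E] {n : ℕ}
    (hA : TypeUnitary A E n) : ∃ ω : (E →+* ℂ) → Fin n → Module.End ℂ (TensorProduct ℚ ℂ A.H1),
      L0h12.CM.IsUnit A ω := by
  obtain ⟨w, h1, h2, h3, h4, h5⟩ := hA
  refine ⟨_, L0h12.PT.isUnit_of_matrix (w := w) ⟨h1, h2⟩ ?_
    (fun X hX => h4 X ((inCentre_iff A).2 hX)) fun x hx => ?_⟩
  · refine Eq.trans ?_ (h3 : lieC A = L0h12.CM.gls w)
    unfold lieC
    simp only [inLie_iff]
    rfl
  · obtain ⟨X, hX, hX'⟩ := h5 x hx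
    exact ⟨X, (inCentre_iff A).1 hX, hX'⟩

theorem rigid_iff : IsRigid A ↔ L0h12.PT.DRigid A :=
  ⟨fun hA 𝔥 h X hX Y hY => hA 𝔥 ⟨fun Z hZ => (inLie_iff A).2 (h.le hZ), h.br⟩ h.semi
    (fun P hP Z hZ => h.comm P hP Z ((inLie_iff A).1 hZ)) X Y ((inLie_iff A).2 hX)
      ((inLie_iff A).2 hY),
    fun hA 𝔥 h1 h3 h4 X Y hX hY => hA 𝔥 ⟨fun Z hZ => (inLie_iff A).1 (h1.1 Z hZ), h1.2, h3,
      fun P hP Z hZ => h4 P hP Z ((inLie_iff A).2 hZ)⟩ X ((inLie_iff A).1 hX) Y
        ((inLie_iff A).1 hY)⟩

theorem signRich_of {E : Type} [Field E] [NumberField E] [IsCMField E] (hE : Admissible E) :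
    L0h12.CM.SignRich E := by
  rcases hE with h | ⟨p, hp, h⟩ | h | h
  · exact L0h12.CM.signRich_of_abelianTransitive L0h12.CM.abelianTransitive_of_abelian
  · exact L0h12.CM.signRich_of_abelianTransitive (L0h12.CM.abelianTransitive_of_prime hp h)
  · exact L0h12.CM.signRich_of_abelianTransitive h
  · exact h

theorem rch_of (hA : HasType A) : L0h12.PT.Rch A := by
  rcases hA with ⟨E, i1, i2, i3, n, hE, hn, hU⟩ | ⟨hr, k, F, hF, hc⟩
  · obtain ⟨ω, hω⟩ := exists_unit A hU
    exact L0h12.PT.rch_U (signRich_of hE) hn hω
  · choose ω hω using fun i => exists_unit (F i).B (F i).type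
    refine (L0h12.PT.crch_fam (ι := Fin k) (fun i => ⟨(F i).E, (F i).g', (F i).B, (F i).n, ω i,
      (F i).f, (F i).p, ⟨⟨(F i).inclusion.1, (F i).inclusion.2⟩,
        ⟨(F i).projection.1, (F i).projection.2⟩, (F i).split⟩, signRich_of (F i).admissible,
      (F i).pos, hω i⟩) (fun V h1 h2 => hF V ⟨h1, h2⟩)
      fun W hW h0 => hc W ((inCentre_iff A).2 hW) fun i v =>
        LinearMap.congr_fun (h0 i) v).rch ((rigid_iff A).1 hr)

/-- The product `A = B × C` is rigid, if `B` has complex multiplication (that is, its Lie algebra is
commutative) and `C` is rigid. The centre of the Lie algebra of `C` can be arbitrary. -/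
theorem isRigid_of_product {g₁ g₂ : ℕ} {B : AbVar g₁} {C : AbVar g₂}
    (hB : ∀ X Y, InLie B X → InLie B Y → X * Y = Y * X) (hC : IsRigid C)
    {i : B.H1 →ₗ[ℚ] A.H1} {p : A.H1 →ₗ[ℚ] B.H1}
    {j : C.H1 →ₗ[ℚ] A.H1} {q : A.H1 →ₗ[ℚ] C.H1} (hi : IsHom B A i)
    (hp : IsHom A B p) (hpi : ∀ v, p (i v) = v) (hj : IsHom C A j)
    (hq : IsHom A C q) (hqj : ∀ v, q (j v) = v) (hs : ∀ v, i (p v) + j (q v) = v) :
    IsRigid A := by
  have h : R917.DT.Fac B A i p := ⟨⟨hi.1, hi.2⟩, ⟨hp.1, hp.2⟩, hpi⟩
  have h' : R917.DT.Fac C A j q := ⟨⟨hj.1, hj.2⟩, ⟨hq.1, hq.2⟩, hqj⟩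
  exact (rigid_iff A).2 (L0h12.PT.dRigid_cm h h' hs
    (fun X hX Y hY => hB X Y ((inLie_iff B).2 hX) ((inLie_iff B).2 hY)) ((rigid_iff C).1 hC))

/-- The abelian variety `A = B × C` is included, if `B` has complex multiplication (that is, its Lie
algebra is commutative), `C` is rigid and the centre of its Lie algebra is zero (for example a
product of elliptic curves without complex multiplication), and there are independent factors of
unitary type such that `B` is contained in their sum. -/
theorem hasType_of_product {g₁ g₂ : ℕ} {B : AbVar g₁} {C : AbVar g₂}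
    (hB : ∀ X Y, InLie B X → InLie B Y → X * Y = Y * X) (hC : IsRigid C)
    (hC0 : ∀ X, InCentre C X → X = 0) {i : B.H1 →ₗ[ℚ] A.H1} {p : A.H1 →ₗ[ℚ] B.H1}
    {j : C.H1 →ₗ[ℚ] A.H1} {q : A.H1 →ₗ[ℚ] C.H1} (hi : IsHom B A i)
    (hp : IsHom A B p) (hpi : ∀ v, p (i v) = v) (hj : IsHom C A j)
    (hq : IsHom A C q) (hqj : ∀ v, q (j v) = v) (hs : ∀ v, i (p v) + j (q v) = v)
    {k : ℕ} (F : Fin k → UnitaryFactor A) (hF : Independent A F)
    (hFB : ∀ v, (∀ l, (F l).p v = 0) → p v = 0) : HasType A := by
  have h : R917.DT.Fac B A i p := ⟨⟨hi.1, hi.2⟩, ⟨hp.1, hp.2⟩, hpi⟩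
  have h' : R917.DT.Fac C A j q := ⟨⟨hj.1, hj.2⟩, ⟨hq.1, hq.2⟩, hqj⟩
  have hR : L0h12.PT.Rigid C := by
    refine ⟨fun X hX => hC0 X ((inCentre_iff C).2 hX), fun 𝔥 h𝔥 X hX => ?_⟩
    obtain ⟨Z, hZ, δ, hδ, hXe, hcomm⟩ := Pool.Agent.N208.AM.full_NA.dec hX
    have hZ0 : Z = 0 := hC0 Z ((inCentre_iff C).2 ⟨hZ, fun Y hY => (hcomm Y hY).symm⟩)
    rw [hXe, hZ0, zero_add]
    have hder : Pool.Agent.Y102.der C.NA ≤ 𝔥 := by
      unfold Pool.Agent.Y102.der
      rw [Submodule.span_le]
      rintro _ ⟨X, hX, Y, hY, rfl⟩
      exact (rigid_iff C).1 hC 𝔥 h𝔥 X hX Y hY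
    exact hder hδ
  exact Or.inr ⟨isRigid_of_product A hB hC hi hp hpi hj hq hqj hs, k, F, hF, fun X hX h0 =>
    L0h12.PT.faithful_of_from (fun l => (F l).f) (fun l => (F l).p)
      (fun l => ⟨⟨(F l).inclusion.1, (F l).inclusion.2⟩, ⟨(F l).projection.1, (F l).projection.2⟩,
        (F l).split⟩) (fun W hW v hv => L0h12.PT.cen_prod h h' hs hR W hW v (hFB v hv)) X
      ((inCentre_iff A).1 hX) h0⟩

/-- `B` is a direct factor of a power of `A`, up to isogeny. -/
def FactorOfPower {g' g : ℕ} (B : AbVar g') (A : AbVar g) : Prop :=
  ∃ (N : ℕ) (f : Fin N → (B.H1 →ₗ[ℚ] A.H1)) (p : Fin N → (A.H1 →ₗ[ℚ] B.H1)),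
    (∀ i, IsHom B A (f i)) ∧ (∀ i, IsHom A B (p i)) ∧ ∀ v, ∑ i, p i (f i v) = v

/-- **All de Rham-Betti classes are Hodge classes for the direct factors of the powers of the abelian
varieties of unitary type `(E, n)`, if `n = 1` or `n` is even, and `E` is admissible; and more generally
of the rigid abelian varieties whose centre acts faithfully on independent factors of unitary type.** -/
theorem result (g : ℕ) (A : AbVar g) (hA : HasType A) (g' : ℕ)
    (B : AbVar g') (hB : FactorOfPower B A) (r : ℕ) (w : ℤ)
    (φ : MultilinearMap ℚ (fun _ : Fin r => B.H1) ℚ) (hφ : IsDRB B w φ) : IsHodge B φ := by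
  have hNA : A.NA ≤ A.LA := L0h12.PT.NA_le_LA (rch_of A hA)
  have hAll : ∀ (m : ℕ) (φ : MultilinearMap ℚ (fun _ : Fin m × Fin 2 => A.H1) ℚ),
      IsDeRhamBettiForm QBar A.dR tau m φ → IsHodgeTensor (A.per : A.H1 →+ (Fin g → ℂ)) φ :=
    fun m φ hφ => hodge_of_kills _ A.isRationalStructure φ fun Z hZ => hNA (A.MA_le_NA hZ) m φ hφ
  obtain ⟨N, f, p, hf, hp, hpf⟩ := hB
  obtain ⟨c, hc⟩ := hφ
  exact L0h12.CM.hodge_power (fun i => ⟨(hf i).1, (hf i).2⟩) (fun i => ⟨(hp i).1, (hp i).2⟩) hpf
    (fun c ψ hψ => R918.hodge_all_of hAll hψ) hc

end Pool.Agent.Results.MP_bf54cf_ag.ComplexMultiplication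

end
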