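import Pool.Agent.L0h12.GT.FinG

set_option autoImplicit false

/-!
# The periods of abelian surfaces (and of abelian varieties with large real or quaternionic
# multiplication) are independent of the periods of any variety, up to finitely many isogeny classes

Let `A` be an abelian variety over `ℚ̄`, of any dimension, which is isogenous to a product of powers of
simple abelian varieties `B` with one of the following properties, where `F` is the centre of
`End(B) ⊗ ℚ`:
* `End(B) ⊗ ℚ = F` is a totally real field and `dim B ≤ 2 [F : ℚ]` (type I),
* `End(B) ⊗ ℚ` is a totally indefinite quaternion algebra over the totally real field `F` and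
  `dim B ≤ 4 [F : ℚ]` (type II).
For example `A` may be **any product of elliptic curves and abelian surfaces without complex
multiplication, with arbitrary multiplicities**: surfaces with `End = ℤ`, with real multiplication or
with quaternionic multiplication (these are all simple abelian surfaces without complex multiplication);
or an abelian fourfold with real quadratic multiplication, an abelian fourfold whose endomorphism
algebra is an indefinite quaternion algebra over `ℚ`, and so on. This is the condition `IsSmall`.
Let `V` be **any** de Rham-Betti structure over `ℚ̄` of rank `d`, pure or mixed (for example the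
cohomology of an arbitrary variety `Z` over `ℚ̄`, open or singular, or `H^1(C) ⊕ H(Z)` where `C` is an
arbitrary abelian variety; see `Structure`).

**Theorem.** There is a central idempotent `e` of `End(A) ⊗ ℚ`, that is a decomposition `A ~ A' × A''`
with `A' = e A`, `A'' = (1 - e) A` without common isogeny factors, such that
* (a) `A''` has few isogeny factors: the dimension of the centre of `End(A'') ⊗ ℚ`, which is the sum of
  the degrees `[F : ℚ]` over all the isogeny classes of simple factors of `A''`, is at most `d`;
* (b) `A'' = 0` if `V` is of CM type (the endomorphisms of the vector space which commute with all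
  de Rham-Betti endomorphisms commute with each other), for example if `d ≤ 1`;
* (c) for all `n`, `n'`, `w`, all de Rham-Betti classes in
  `H^1(A') ^ {⊗ n} ⊗ (H^1(A'') ⊕ V) ^ {⊗ n'} (w)` are zero if `n` is odd, and if `n = 2 m` they are sums
  of products `ψ ⊗ χ`, where `ψ` is a de Rham-Betti class in `H^1(A') ^ {⊗ 2m} (m)` and `χ` is a
  de Rham-Betti class in `(H^1(A'') ⊕ V) ^ {⊗ n'} (w - m)`;
* (d) if all endomorphisms of `A` are symmetric (the factors `B` are of type I and occur with
  multiplicity one), then all de Rham-Betti classes in
  `H^{2m}(A') ⊗ (H^1(A'') ⊕ V) ^ {⊗ n'} (w)` are sums of products `ψ ⊗ χ` where `ψ` is a linear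
  combination of products of `m` divisor classes and `χ` is as in (c).

In terms of the period torsors (c) says that the periods of `A'` are algebraically as independent as
possible of the periods of `A''` and `V`: the motivic Galois group, in the de Rham-Betti sense, of the
sum is the fibre product over the group of the Tate structure. For all `N`, `N'` and every smooth
projective variety `Z` (with `V` the sum of its cohomology groups), the cohomology of
`A' ^ N × A'' ^ N' × Z` is contained in the tensor products of (c). So **all de Rham-Betti classes on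
`A' ^ N × A'' ^ N' × Z` are sums of products of de Rham-Betti classes on `A' ^ N` and on
`A'' ^ N' × Z`**, and the period conjecture for algebraic cycles for `A' ^ N × Z` in all codimensions is
equivalent to the conjecture for `A' ^ N` and for `Z`. In the case (d), with `V = 0`, we have
`A' = A`, and the period conjecture is true for `A` in all codimensions; then for all `Z` the
conjecture for `A × Z` is implied by the conjecture for `A'' × Z`.
* Let `X` be any product of elliptic curves and abelian surfaces, `X ~ A × C`, where `C` is the part with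
  complex multiplication. Then (b) and (c) for `V = H^1(C)` show that all de Rham-Betti classes on all
  powers of `X` are sums of products of those on the powers of `A` and of `C`. More generally this
  holds for `A × Z` if the cohomology of `Z` is of CM type (products of abelian varieties with complex
  multiplication, Fermat varieties, K3 surfaces with complex multiplication).
* For every variety `Z` over `ℚ̄`, the periods of all but finitely many simple abelian surfaces and
  elliptic curves without complex multiplication, at most `d` isogeny classes up to `ℚ̄`-isogeny, are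
  independent of the periods of `Z` (and of all the other ones). The de Rham-Betti classes of `Z` are
  not known, nor are its Hodge classes, and the theorems of Wüstholz and Deligne are not available for
  `Z`.

If `dim B = [End(B) ⊗ ℚ : ℚ]` for all `B` and `d = 0`, (d) is a known result of this repository (then
the Lie algebra which annihilates the de Rham-Betti classes is the full one, a product of copies of
`sl(2)`). If `dim B = 2 [End(B) ⊗ ℚ : ℚ]` for some `B`, the Lie algebra is not known, already if `B` is
an abelian surface with `End(B) = ℤ`: it may be `sp(4)` or the image of `sl(2)` in its irreducible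
representation of dimension four, and in the second case there are de Rham-Betti classes on the powers
of `B` which are not Hodge classes. If `E` is an elliptic curve without complex multiplication, it may
be that this is the same `sl(2)` as that of `E`, so that the period matrices of `B` and `E` are
algebraically related; then there are such classes on `B × E ^ 3`. The bound in (a) is the natural
one: for `V = H^1(E)` we have `d = 2`, the curve `E` does not split off from `V`, and it is not known
that there is no second such factor (an abelian surface).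

The condition on the simple factors is stated in the following form (`IsSmall`): there are commuting
endomorphisms `P_1, …, P_r` of `A`, symmetric for the polarization, such that all endomorphisms which
commute with all of them are symmetric, and such that the homology `H_1(A, ℚ)` is generated by four
elements as a module over the algebra of these endomorphisms. (Take `r = 1` and a general symmetric
endomorphism `P_1`; over the real numbers the algebra `End(A) ⊗ ℝ` is a product of matrix algebras, the
Rosati involution is the transposition, and the algebra generated by `P_1` is a product of copies of `ℝ`.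
For a product of pairwise non-isogenous factors of type I one can take `r = 0`.)

Nothing is assumed about periods: `AbVar` is the description of an abelian variety over `ℚ̄` by theta
functions (see `Pool/Agent/Y102/AVDefs.lean`, where it is explained why every abelian variety has it),
and the theorem of Schneider and Lang is proved in this repository.

## The classes

The classes in `H^1(A) ^ {⊗ n} ⊗ (H^1(A) ⊕ V) ^ {⊗ n'} (w)` are the forms `φ u z` with rational values,
where `u` consists of `n` elements of `H_1(A, ℚ)`, `z` of `n'` elements of the dual of the Betti side of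
`H^1(A) ⊕ V`, which is the product of `H_1(A, ℚ)` and `ℚ ^ d`; they are multilinear in `u` and in `z`
(and alternating in `u` in (d)). Such a form is a de Rham-Betti class if `(2 π i) ^ w φ` is a
combination with algebraic coefficients of products of elements of the de Rham bases
(`IsDRBMixed`). It is a class in `H^1(A') ^ {⊗ n} ⊗ (H^1(A'') ⊕ V) ^ {⊗ n'} (w)` if its value does not
change if we apply `e` to all entries of `u` and `1 - e` to the components in `H_1(A, ℚ)` of all entries
of `z` (`Supported`). A rational alternating form in two variables which is a Hodge class is the class of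
a divisor, with rational coefficients, by the theorem of Lefschetz (`IsDivisorClass`).

## Proof

1. Let `L` be the Lie algebra over `ℚ` generated by the rational components of the logarithmic
   derivatives of the period matrix of `H^1(A) ⊕ V` (for all derivations of `ℂ` over `ℚ̄`). It acts on
   all de Rham-Betti classes by the character of the twist and determines them (`FT/Act2`). By the
   theorem of Schneider-Lang and Bost its image `𝔥` in `H_1(A, ℂ)` acts irreducibly on the joint
   eigenspaces `W j` of the endomorphisms which commute with the `P i`; the form is nondegenerate on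
   them, and they are of dimension two or four (`GT/BlkG`).
2. `𝔥` is semisimple. Take a principal `sl(2)` in `𝔥`. Each `W j` is one string for it, of length two or
   four; so its weights are odd, and multilinear forms in an odd number of variables which are
   annihilated by `𝔥` vanish. The image of `𝔥` in each block is simple. Two blocks of the same
   dimension with the same kernel are isomorphic: the highest weight of a block is determined by its
   kernel (`FF/Twin`, `GT/Fm`).
3. Let `𝔫` be the ideal of `𝔥` of the elements which are the components of elements of `L` that act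
   trivially on `V` and on the twist. Each block is either annihilated by `𝔫` or by the
   complementary ideal. The projection to the sum of the blocks of the second kind commutes with all
   endomorphisms of `A` and is defined over `ℚ`; this is `e` (`GT/RatG`). A de Rham-Betti class as
   in (c) is annihilated by `𝔫`, acting on `u` alone, and so by `𝔥`, and (c) follows (`GT/FinG`). In (d)
   the blocks are pairwise not isomorphic, and the alternating forms which are annihilated by `𝔥` are
   sums of products of the forms of the blocks (`FF/Comb` to `FF/Prods2`).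
4. To prove (a) we have to show that there are at most `d` isomorphism classes of blocks which are
   annihilated by `𝔫`. The image of `L` in `V` is mapped onto the product of the corresponding
   quotients of `𝔥 ⊗ ℂ`, and each quotient belongs to at most two isomorphism classes of blocks. We show
   that a representation of a complex Lie algebra with `k` independent quotients of this kind which
   contains the kernel of none of them is of dimension at least `2 k` (`FT/DimJ`). This is reduced to
   irreducible representations, where the principal triples of the quotients lift to commuting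
   copies of `sl(2)` (by the criterion of Cartan), and for `k` commuting copies of `sl(2)` the number
   of the common eigenvalues, which is invariant under all reflections, is at least `2 k`
   (`FT/Sl`, `FT/SlD`).
-/

open Module Pool.Agent.Y102 Pool.Agent.W516.DR Pool.Agent.H204R3.GP

noncomputable section

namespace Pool.Agent.Results.MP_bf54cf_ag.PowersOfSurfaces

/-- The period `(2 π i) ^ w` of the Tate twist. -/
def twist (w : ℤ) : ℂ := (2 * Real.pi * Complex.I) ^ w

/-- A de Rham-Betti structure of rank `d` over `ℚ̄`: the Betti side is the dual of `ℚ ^ d`, and the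
de Rham side is given by a basis, whose elements are considered as linear functions on `ℚ ^ d` with
complex values (the periods are the values on the rational vectors); the independence means that the
comparison is an isomorphism. -/
structure Structure (d : ℕ) where
  /-- the basis of the de Rham side -/
  dR : Fin d → ((Fin d → ℚ) →ₗ[ℚ] ℂ)
  indep : LinearIndependent ℂ dR

section Structures

variable {d : ℕ} (V : Structure d)

/-- `X` commutes with all de Rham-Betti endomorphisms. -/
def InCommutant (X : Module.End ℚ (Fin d → ℚ)) : Prop :=
  ∀ P, IsDeRhamBettiEnd QBar V.dR P → ∀ u, X (P u) = P (X u)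

/-- The structure `V` is of CM type: all endomorphisms of the vector space which commute with the
de Rham-Betti endomorphisms commute with each other. -/
def IsCM : Prop := ∀ X Y, InCommutant V X → InCommutant V Y → ∀ u, X (Y u) = Y (X u)

end Structures

section Abelian

variable {g : ℕ} (A : AbVar g)

/-- `P` is an endomorphism of `A` (up to isogeny), in terms of its action on `H_1(A, ℚ)`: it respects
the de Rham structure. (By the theorem of Bost, which is proved in `Pool.Agent.Y102.AbVar.hodge_end`,
these are the elements of `End(A) ⊗ ℚ`.) -/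
def IsEndo (P : Module.End ℚ A.H1) : Prop := IsDeRhamBettiEnd QBar A.dR P

/-- `P` is symmetric for the polarization. -/
def IsSymmetric (P : Module.End ℚ A.H1) : Prop := ∀ u v, A.om (P u) v = A.om u (P v)

/-- `A` is a product of powers of simple abelian varieties of type I or II which are small: there are
commuting symmetric endomorphisms `P i` such that all endomorphisms which commute with them are
symmetric, and the homology is generated by four elements over the algebra of these
endomorphisms. -/
def IsSmall : Prop :=
  ∃ (r : ℕ) (P : Fin r → Module.End ℚ A.H1) (x : Fin 4 → A.H1),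
    (∀ i, IsEndo A (P i) ∧ IsSymmetric A (P i)) ∧ (∀ i k, P i * P k = P k * P i) ∧
    (∀ Q, IsEndo A Q → (∀ i, Q * P i = P i * Q) → IsSymmetric A Q) ∧
    Submodule.span ℚ {y | ∃ Q, IsEndo A Q ∧ (∀ i, Q * P i = P i * Q) ∧ ∃ k, y = Q (x k)} = ⊤

/-- `P` is in the centre of `End(A) ⊗ ℚ`. -/
def IsCentral (P : Module.End ℚ A.H1) : Prop := IsEndo A P ∧ ∀ Q, IsEndo A Q → P * Q = Q * P

/-- The space of the central endomorphisms `f` of `A` with `f e = 0` (that is, if `e` is a central
idempotent, the centre of the algebra of the endomorphisms of `(1 - e) A`) is of dimension at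
most `d`. -/
def FewOff (e : Module.End ℚ A.H1) (d : ℕ) : Prop :=
  ∀ (k : ℕ) (f : Fin k → Module.End ℚ A.H1), LinearIndependent ℚ f →
    (∀ i, IsCentral A (f i) ∧ f i * e = 0) → k ≤ d

/-- De Rham-Betti classes in `H^1(A) ^ {⊗ n} (m)`. -/
def IsDRBPower {n : ℕ} (m : ℤ) (ψ : MultilinearMap ℚ (fun _ : Fin n => A.H1) ℚ) : Prop :=
  ∃ a : (Fin n → Fin g ⊕ Fin g) → QBar, ∀ u, twist m * (ψ u : ℂ) =
    ∑ J, algebraMap QBar ℂ (a J) * ∏ l, A.dR (J l) (u l)

/-- `H^{2m}(A, ℚ)`: the alternating forms in `2 m` variables in `H_1(A, ℚ)`. -/
abbrev Cohomology (m : ℕ) : Type := A.H1 [⋀^Fin m × Fin 2]→ₗ[ℚ] ℚ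

/-- The bilinear forms on `H_1(A, ℚ)`. -/
abbrev Bilinear : Type := A.H1 →ₗ[ℚ] A.H1 →ₗ[ℚ] ℚ

/-- The alternating bilinear form `b` is a Hodge class in `H^2(A) (1)`, that is (Lefschetz), a
rational multiple of the class of a divisor. -/
def IsDivisorClass (b : Bilinear A) : Prop :=
  IsHodgeBilinear (A.per : A.H1 →+ (Fin g → ℂ)) b ∧ ∀ u, b u u = 0

/-- The product of the values of the bilinear forms `b l` on the vectors `v (l, 0)`, `v (l, 1)`. -/
def prodAt {m : ℕ} (b : Fin m → Bilinear A) (v : Fin m × Fin 2 → A.H1) : ℚ :=
  ∏ l, b l (v (l, 0)) (v (l, 1))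

/-- The alternating form `ψ` is the product of the classes `b l` of degree two. -/
def IsProduct {m : ℕ} (b : Fin m → Bilinear A) (ψ : Cohomology A m) : Prop :=
  ∀ v, ψ v = ∑ σ : Equiv.Perm (Fin m × Fin 2), ((Equiv.Perm.sign σ : ℤ) : ℚ) * prodAt A b (v ∘ σ)

/-- `ψ` is a linear combination of products of divisor classes. -/
def IsSumOfProducts {m : ℕ} (ψ : Cohomology A m) : Prop :=
  ψ ∈ Submodule.span ℚ {ψ | ∃ b : Fin m → Bilinear A, (∀ l, IsDivisorClass A (b l)) ∧
    IsProduct A b ψ}

end Abelian

section Mixed

variable {g d : ℕ} (A : AbVar g) (V : Structure d)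

/-- The dual of the Betti side of `H^1(A) ⊕ V`. -/
abbrev Both (_ : Structure d) : Type := A.H1 × (Fin d → ℚ)

/-- The basis of the de Rham side of `H^1(A) ⊕ V`. -/
def dRBoth : (Fin g ⊕ Fin g) ⊕ Fin d → (Both A V →ₗ[ℚ] ℂ)
  | Sum.inl i => (A.dR i).comp (LinearMap.fst ℚ _ _)
  | Sum.inr j => (V.dR j).comp (LinearMap.snd ℚ _ _)

/-- The forms in `n'` variables in the dual of `H^1(A) ⊕ V`. -/
abbrev Form (n' : ℕ) : Type := MultilinearMap ℚ (fun _ : Fin n' => Both A V) ℚ

/-- The forms which are multilinear in the variables indexed by `κ` in the homology of `A` and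
multilinear in `n'` variables in the dual of `H^1(A) ⊕ V`. -/
abbrev Mixed (κ : Type) (n' : ℕ) : Type := MultilinearMap ℚ (fun _ : κ => A.H1) (Form A V n')

/-- De Rham-Betti classes in `(H^1(A) ⊕ V) ^ {⊗ n'} (w)`. -/
def IsDRB {n' : ℕ} (w : ℤ) (χ : Form A V n') : Prop :=
  ∃ a : (Fin n' → (Fin g ⊕ Fin g) ⊕ Fin d) → QBar, ∀ z, twist w * (χ z : ℂ) =
    ∑ J, algebraMap QBar ℂ (a J) * ∏ l, dRBoth A V (J l) (z l)

/-- De Rham-Betti classes in `H^1(A) ^ {⊗ κ} ⊗ (H^1(A) ⊕ V) ^ {⊗ n'} (w)`. -/
def IsDRBMixed {κ : Type} [Fintype κ] [DecidableEq κ] {n' : ℕ} (w : ℤ) (φ : Mixed A V κ n') :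
    Prop :=
  ∃ a : (κ → Fin g ⊕ Fin g) → (Fin n' → (Fin g ⊕ Fin g) ⊕ Fin d) → QBar, ∀ u z,
    twist w * (φ u z : ℂ) = ∑ J, ∑ J', algebraMap QBar ℂ (a J J') *
      ((∏ l, A.dR (J l) (u l)) * ∏ l, dRBoth A V (J' l) (z l))

/-- The application of `1 - e` to the component in the homology of `A`. -/
def off (e : Module.End ℚ A.H1) (z : Both A V) : Both A V := (z.1 - e z.1, z.2)

/-- The form `φ` is a class in `H^1(A') ^ {⊗ κ} ⊗ (H^1(A'') ⊕ V) ^ {⊗ n'}`, with `A' = e A`,
`A'' = (1 - e) A`. -/
def Supported {κ : Type} (e : Module.End ℚ A.H1) {n' : ℕ} (φ : Mixed A V κ n') : Prop :=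
  ∀ u z, φ (fun l => e (u l)) (fun l => off A V e (z l)) = φ u z

/-- The form `χ` is a class in `(H^1(A'') ⊕ V) ^ {⊗ n'}`, with `A'' = (1 - e) A`. -/
def SupportedOff (e : Module.End ℚ A.H1) {n' : ℕ} (χ : Form A V n') : Prop :=
  ∀ z, χ (fun l => off A V e (z l)) = χ z

/-- The form `φ` is alternating in the variables in the homology of `A`. -/
def IsAlternating {κ : Type} {n' : ℕ} (φ : Mixed A V κ n') : Prop :=
  ∀ (u : κ → A.H1) (i j : κ), u i = u j → i ≠ j → φ u = 0

/-- `φ` is a sum of products `ψ ⊗ χ` of de Rham-Betti classes `ψ` in `H^1(A') ^ {⊗ 2m} (m)` and of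
de Rham-Betti classes `χ` in `(H^1(A'') ⊕ V) ^ {⊗ n'} (w - m)`. -/
def Splits (e : Module.End ℚ A.H1) {m n' : ℕ} (w : ℤ) (φ : Mixed A V (Fin (2 * m)) n') : Prop :=
  ∃ (N : ℕ) (ψ : Fin N → MultilinearMap ℚ (fun _ : Fin (2 * m) => A.H1) ℚ)
    (χ : Fin N → Form A V n'),
    (∀ k, IsDRBPower A m (ψ k) ∧ (∀ u, ψ k (fun l => e (u l)) = ψ k u) ∧
      IsDRB A V (w - m) (χ k) ∧ SupportedOff A V e (χ k)) ∧
      ∀ u z, φ u z = ∑ k, ψ k u * χ k z

/-- `φ` is a sum of products `ψ ⊗ χ` of linear combinations `ψ` of products of `m` divisor classes of
`A` and of de Rham-Betti classes `χ` in `(H^1(A'') ⊕ V) ^ {⊗ n'} (w - m)`. -/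
def SplitsByDivisors (e : Module.End ℚ A.H1) {m n' : ℕ} (w : ℤ)
    (φ : Mixed A V (Fin m × Fin 2) n') : Prop :=
  ∃ (N : ℕ) (ψ : Fin N → Cohomology A m) (χ : Fin N → Form A V n'),
    (∀ k, IsSumOfProducts A (ψ k) ∧ IsDRB A V (w - m) (χ k) ∧ SupportedOff A V e (χ k)) ∧
      ∀ u z, φ u z = ∑ k, ψ k u * χ k z

end Mixed

theorem dRBoth_eq {g d : ℕ} (A : AbVar g) (V : Structure d) :
    Pool.Agent.L0h12.FT.dRT A ⟨V.dR, V.indep⟩ = dRBoth A V := by
  funext i
  rcases i with i | i <;> rfl

/-- **The periods of the powers of surfaces and of abelian varieties with large multiplication are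
independent of the periods of an arbitrary structure, up to few isogeny classes.** -/
theorem result {g d : ℕ} (A : AbVar g) (V : Structure d) (hA : IsSmall A) :
    ∃ e : Module.End ℚ A.H1, IsCentral A e ∧ e * e = e ∧ (IsCM V → e = 1) ∧ FewOff A e d ∧
      (∀ (n n' : ℕ) (w : ℤ) (φ : Mixed A V (Fin n) n'), Odd n → IsDRBMixed A V w φ →
        Supported A V e φ → φ = 0) ∧
      (∀ (m n' : ℕ) (w : ℤ) (φ : Mixed A V (Fin (2 * m)) n'), IsDRBMixed A V w φ →
        Supported A V e φ → Splits A V e w φ) ∧
      ((∀ P, IsEndo A P → IsSymmetric A P) →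
        ∀ (m n' : ℕ) (w : ℤ) (φ : Mixed A V (Fin m × Fin 2) n'), IsDRBMixed A V w φ →
          Supported A V e φ → IsAlternating A V φ → SplitsByDivisors A V e w φ) := by
  obtain ⟨r, P, x, h1, h2, h3, hx⟩ := hA
  have H : Pool.Agent.L0h12.FF.Sys A P :=
    { mem := fun i => A.mem_EA.2 (h1 i).1
      comm := h2
      sym := fun i => (h1 i).2
      real := fun Q hQ hQP => h3 Q (A.mem_EA.1 hQ) hQP }
  have hx' : Submodule.span ℚ {y | ∃ Q ∈ Pool.Agent.L0h12.FF.ZZ A P, ∃ k, y = Q (x k)} = ⊤ := by
    rw [← hx]
    congr 1
    ext y
    exact ⟨fun ⟨Q, hQ, k, h⟩ => ⟨Q, A.mem_EA.1 hQ.1, hQ.2, k, h⟩,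
      fun ⟨Q, hQ, hQ', k, h⟩ => ⟨Q, ⟨A.mem_EA.2 hQ, hQ'⟩, k, h⟩⟩
  have hx'' : Submodule.span ℚ {y | ∃ Q ∈ A.EA, ∃ k, y = Q (x k)} = ⊤ := by
    rw [eq_top_iff, ← hx']
    exact Submodule.span_mono fun y ⟨Q, hQ, k, h⟩ => ⟨Q, hQ.1, k, h⟩
  obtain ⟨e, he, hee, hh, hn, hone, hbd⟩ :=
    Pool.Agent.L0h12.GT.exists_splitG A ⟨V.dR, V.indep⟩ H x hx'
  have hcen : ∀ {f : Module.End ℚ A.H1}, IsCentral A f ↔ f ∈ Pool.Agent.L0h12.GT.CE A := fun {f} =>
    ⟨fun h => ⟨A.mem_EA.2 h.1, fun Q hQ => h.2 Q (A.mem_EA.1 hQ)⟩,
      fun h => ⟨A.mem_EA.1 h.1, fun Q hQ => h.2 Q (A.mem_EA.2 hQ)⟩⟩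
  have hmix : ∀ {κ : Type} [Fintype κ] [DecidableEq κ] {n' : ℕ} {w : ℤ} {φ : Mixed A V κ n'},
      IsDRBMixed A V w φ →
        Pool.Agent.L0h12.FT.Mix2 A ⟨V.dR, V.indep⟩ w φ := by
    intro κ _ _ n' w φ h
    obtain ⟨a, ha⟩ := h
    refine ⟨a, fun u z => ?_⟩
    rw [dRBoth_eq]
    exact ha u z
  refine ⟨e, hcen.2 he, hee, fun hcm => hone (Pool.Agent.L0h12.GT.full_of_cmG
    (Pool.Agent.L0h12.GT.perfG (Pool.Agent.L0h12.FT.fullA A _) H) fun X Y hX hY => ?_),
    fun k f hf hfe => hbd k f hf (fun i => hcen.1 (hfe i).1) fun i => (hfe i).2,
    fun n n' w φ hn' hφ hs => ?_, fun m n' w φ hφ hs => ?_, fun hsym m n' w φ hφ hs halt => ?_⟩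
  · exact LinearMap.ext (hcm X Y (fun P hP u => LinearMap.congr_fun (hX P hP) u)
      fun P hP u => LinearMap.congr_fun (hY P hP) u)
  · exact Pool.Agent.L0h12.GT.odd_tensor H x hx' (hmix hφ) he.1 hee hh hn hs
      (by rwa [Fintype.card_fin])
  · obtain ⟨N, ψ, χ, e1, e2, e3, e4, e5⟩ := Pool.Agent.L0h12.GT.split_tensor (hmix hφ) he.1 hee hh
      hn hs (Fintype.card_fin (2 * m))
    refine ⟨N, ψ, χ, fun k => ⟨e1 k, e2 k, ?_, e4 k⟩, e5⟩
    obtain ⟨a, ha⟩ := e3 k
    refine ⟨a, fun z => ?_⟩
    have h5 := ha z
    rw [dRBoth_eq] at h5
    exact h5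
  · obtain ⟨N, ψ, χ, e1, e3, e4, e5⟩ := Pool.Agent.L0h12.GT.split_alt (hmix hφ) he.1 hee hh hn hs
      halt (fun Q hQ => hsym Q (A.mem_EA.1 hQ)) x hx'' (Equiv.refl (Fin m × Fin 2))
    refine ⟨N, ψ, χ, fun k => ⟨e1 k, ?_, e4 k⟩, e5⟩
    obtain ⟨a, ha⟩ := e3 k
    refine ⟨a, fun z => ?_⟩
    have h5 := ha z
    rw [dRBoth_eq] at h5
    exact h5

end Pool.Agent.Results.MP_bf54cf_ag.PowersOfSurfaces
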